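import Pool.Agent.Helper44.GH.Stmts

open Finset MeasureTheory Filter Topology Matrix
open scoped ENNReal ContDiff

namespace Pool.Agent.Helper44.GH

open Pool.Agent.Helper44.GF Pool.Agent.Helper44.GN

namespace SGF52

variable {n m : ℕ}

theorem tt_eq (V W : Matrix (Fin n) (Fin m) ℝ) (y : Fin n → ℝ) :
    TT V W y = ∑ i, y i • Matrix.vecMulVec (V i) (W i) := by
  ext a b
  unfold TT
  rw [Matrix.sum_apply, Matrix.mul_assoc, Matrix.mul_apply]
  refine Finset.sum_congr rfl fun i _ => ?_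
  rw [Matrix.diagonal_mul]
  simp only [Matrix.transpose_apply, Matrix.smul_apply, Matrix.vecMulVec_apply, smul_eq_mul]
  ring

theorem quad_TT (V : Matrix (Fin n) (Fin m) ℝ) (y : Fin n → ℝ) (x : Fin m → ℝ) :
    x ⬝ᵥ (TT V V y *ᵥ x) = ∑ i, y i * (V.mulVec x i) ^ 2 := by
  unfold TT
  rw [← Matrix.mulVec_mulVec, ← Matrix.mulVec_mulVec, Matrix.mulVec_transpose,
    dotProduct_comm, ← Matrix.dotProduct_mulVec]
  unfold dotProduct
  refine Finset.sum_congr rfl fun i _ => ?_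
  rw [Matrix.mulVec_diagonal]
  ring

theorem TT_symm (V : Matrix (Fin n) (Fin m) ℝ) (y : Fin n → ℝ) :
    (TT V V y)ᵀ = TT V V y := by
  unfold TT
  rw [Matrix.transpose_mul, Matrix.transpose_mul, Matrix.transpose_transpose,
    Matrix.diagonal_transpose, Matrix.mul_assoc]

theorem TT_swap (V W : Matrix (Fin n) (Fin m) ℝ) (y : Fin n → ℝ) :
    (TT V W y)ᵀ = TT W V y := by
  unfold TT
  rw [Matrix.transpose_mul, Matrix.transpose_mul, Matrix.transpose_transpose,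
    Matrix.diagonal_transpose, Matrix.mul_assoc]

theorem det_unit (V : Matrix (Fin n) (Fin m) ℝ) (hV : Function.Injective V.mulVec)
    (y : Fin n → ℝ) (hy : y ∈ Og n) : IsUnit (TT V V y).det := by
  rw [← Matrix.isUnit_iff_isUnit_det, ← Matrix.mulVec_injective_iff_isUnit]
  intro a b hab
  have h0 : TT V V y *ᵥ (a - b) = 0 := by
    rw [Matrix.mulVec_sub]
    exact sub_eq_zero.2 hab
  have h1 : ∑ i, y i * (V.mulVec (a - b) i) ^ 2 = 0 := by
    rw [← quad_TT, h0, dotProduct_zero]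
  have h2 : V.mulVec (a - b) = V.mulVec 0 := by
    rw [Matrix.mulVec_zero]
    funext i
    have h3 := (Finset.sum_eq_zero_iff_of_nonneg
      (fun i _ => mul_nonneg (le_of_lt (hy i)) (sq_nonneg (V.mulVec (a - b) i)))).1 h1 i
      (Finset.mem_univ i)
    rcases mul_eq_zero.1 h3 with h4 | h4
    · exact absurd h4 (ne_of_gt (hy i))
    · exact pow_eq_zero_iff (two_ne_zero) |>.1 h4
  exact sub_eq_zero.1 (hV h2)

theorem inv_nonneg (V : Matrix (Fin n) (Fin m) ℝ) (hV : Function.Injective V.mulVec)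
    (y : Fin n → ℝ) (hy : y ∈ Og n) (x : Fin m → ℝ) :
    0 ≤ x ⬝ᵥ ((TT V V y)⁻¹ *ᵥ x) := by
  have hu := det_unit V hV y hy
  have h1 : x = TT V V y *ᵥ ((TT V V y)⁻¹ *ᵥ x) := by
    rw [Matrix.mulVec_mulVec, Matrix.mul_nonsing_inv _ hu, Matrix.one_mulVec]
  have h2 : x ⬝ᵥ ((TT V V y)⁻¹ *ᵥ x)
      = ((TT V V y)⁻¹ *ᵥ x) ⬝ᵥ (TT V V y *ᵥ ((TT V V y)⁻¹ *ᵥ x)) := by
    rw [← h1, dotProduct_comm]
  rw [h2, quad_TT]
  exact Finset.sum_nonneg fun i _ => mul_nonneg (le_of_lt (hy i)) (sq_nonneg _)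

theorem inv_symm (V : Matrix (Fin n) (Fin m) ℝ) (y : Fin n → ℝ) (a b : Fin m → ℝ) :
    a ⬝ᵥ ((TT V V y)⁻¹ *ᵥ b) = b ⬝ᵥ ((TT V V y)⁻¹ *ᵥ a) := by
  have h : ((TT V V y)⁻¹)ᵀ = (TT V V y)⁻¹ := by
    rw [Matrix.transpose_nonsing_inv, TT_symm]
  rw [Matrix.dotProduct_mulVec, ← Matrix.mulVec_transpose, h, dotProduct_comm]

theorem cs (V : Matrix (Fin n) (Fin m) ℝ) (hV : Function.Injective V.mulVec)
    (y : Fin n → ℝ) (hy : y ∈ Og n) (v r : Fin m → ℝ) :
    (((TT V V y)⁻¹ *ᵥ v) ⬝ᵥ r) ^ 2 / (v ⬝ᵥ ((TT V V y)⁻¹ *ᵥ v))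
      ≤ r ⬝ᵥ ((TT V V y)⁻¹ *ᵥ r) := by
  set M := (TT V V y)⁻¹ with hM
  have hr := inv_nonneg V hV y hy r
  have hv := inv_nonneg V hV y hy v
  rw [← hM] at hr hv
  rcases hv.eq_or_lt with h0 | h0
  · rw [← h0, div_zero]
    exact hr
  · rw [div_le_iff₀ h0]
    have hk : (M *ᵥ v) ⬝ᵥ r = r ⬝ᵥ (M *ᵥ v) := dotProduct_comm _ _
    rw [hk]
    have hs : v ⬝ᵥ (M *ᵥ r) = r ⬝ᵥ (M *ᵥ v) := inv_symm V y v r
    set k := r ⬝ᵥ (M *ᵥ v) with hkd
    set q := r ⬝ᵥ (M *ᵥ r) with hqd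
    set h := v ⬝ᵥ (M *ᵥ v) with hhd
    have h1 := inv_nonneg V hV y hy (k • v - h • r)
    rw [← hM, Matrix.mulVec_sub, Matrix.mulVec_smul, Matrix.mulVec_smul, dotProduct_sub,
      sub_dotProduct, sub_dotProduct, smul_dotProduct, smul_dotProduct, smul_dotProduct,
      smul_dotProduct, dotProduct_smul, dotProduct_smul, dotProduct_smul, dotProduct_smul,
      hs, ← hkd, ← hqd, ← hhd] at h1
    simp only [smul_eq_mul] at h1
    have h2 : 0 ≤ h * (q * h - k ^ 2) := by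
      have : h * (q * h - k ^ 2) = k * (k * h) - h * (k * k) - (k * (h * k) - h * (h * q)) := by
        ring
      rw [this]
      exact h1
    have h3 := nonneg_of_mul_nonneg_right h2 h0
    linarith

end SGF52

open SGF52

theorem st_SGF : ST_SGF := by
  intro n m V Z hV y hy
  have hu := det_unit V hV y hy
  have hHB : TT V V y * BB V Z y = TT V Z y := by
    unfold BB
    rw [← Matrix.mul_assoc, Matrix.mul_nonsing_inv _ hu, Matrix.one_mul]
  have hR : ∀ i, (Z - V * BB V Z y) i = rr V Z y i := by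
    intro i
    unfold rr
    rw [Matrix.mulVec_transpose]
    rfl
  have hmain : TT Z Z y - (BB V Z y)ᵀ * TT V V y * BB V Z y
      = TT (Z - V * BB V Z y) (Z - V * BB V Z y) y := by
    have e1 : TT Z V y = (BB V Z y)ᵀ * TT V V y := by
      rw [← TT_swap V Z y, ← hHB, Matrix.transpose_mul, TT_symm]
    have e2 : TT (Z - V * BB V Z y) (Z - V * BB V Z y) y
        = TT Z Z y - TT Z V y * BB V Z y - (BB V Z y)ᵀ * TT V Z y
          + (BB V Z y)ᵀ * TT V V y * BB V Z y := by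
      unfold TT
      rw [Matrix.transpose_sub, Matrix.transpose_mul]
      simp only [Matrix.sub_mul, Matrix.mul_sub, Matrix.mul_assoc]
      abel
    rw [e2, e1, ← hHB]
    simp only [Matrix.mul_assoc]
    abel
  have h1 : TT Z Z y - (BB V Z y)ᵀ * TT V V y * BB V Z y
      = ∑ i, y i • Matrix.vecMulVec (rr V Z y i) (rr V Z y i) := by
    rw [hmain, tt_eq]
    refine Finset.sum_congr rfl fun i _ => ?_
    rw [hR i]
  have h2 : sgm V Z y = ∑ i, y i * (rr V Z y i ⬝ᵥ (TT V V y)⁻¹ *ᵥ rr V Z y i) := by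
    unfold sgm
    rw [h1, Matrix.mul_sum, Matrix.trace_sum]
    refine Finset.sum_congr rfl fun i _ => ?_
    rw [Matrix.mul_smul, Matrix.trace_smul, Matrix.mul_vecMulVec, Matrix.trace_vecMulVec,
      smul_eq_mul, dotProduct_comm]
  have h3 : ∑ i, y i * (ka V Z y i ^ 2 / hh V y i) ≤ sgm V Z y := by
    rw [h2]
    refine Finset.sum_le_sum fun i _ => ?_
    refine mul_le_mul_of_nonneg_left ?_ (le_of_lt (hy i))
    exact cs V hV y hy (V i) (rr V Z y i)
  refine ⟨h1, h2, h3, ?_⟩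
  rw [h2]
  exact Finset.sum_nonneg fun i _ =>
    mul_nonneg (le_of_lt (hy i)) (inv_nonneg V hV y hy _)

end Pool.Agent.Helper44.GH
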